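import Mathlib
import Pool.Agent.Lib.MP_c91ad1_co.AbTransfer

/-!
# The Gusfield-Irving conjecture holds for instances with a transitive commutative automorphism group

Identify men and women with the elements of an abelian group `G` of order `2 ^ k`, so that the man `m`
ranks the woman `w` by a function of `w - m`, and conversely. In every stable matching the displacement
`w - m` of every pair belongs to the Pareto set `x_0, ..., x_r` of displacements, and a stable matching is
a chain `S_1 ⊇ ... ⊇ S_r` of subsets of `G`, where `S_j` is invariant under `x_j - x_(j-1)`. If all sets of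
a chain with indices in a window are different from the empty set and from `G`, the differences in the
window do not generate `G`. So the chains are counted by inclusion and exclusion over the maximal windows
which do not generate `G`; each such window lies in a subgroup of index two, where its count is a square.
The bound follows by induction on `k` with superadditive increments `D k`: a window with `t` more cut
positions than its largest non generating final segment has at most `D k t` more chains. The Gray path in
`(ZMod 2) ^ k`, with the women's lists reversed, attains the bound.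
-/

set_option autoImplicit false

namespace Pool.Agent.Results.MP_c91ad1_co.AbelianAutomorphisms

/-- Let `z 0 = 1`, `z 1 = 2`, `z (k+2) = 3 z(k+1)^2 - 2 z(k)^4`. For every `k`, the largest number of
stable matchings of a stable marriage instance with `2 ^ k` men and `2 ^ k` women which has a commutative
group `A` of automorphisms (`α g` acts on the men, `β g` on the women, the preference ranks `mp m w` and
`wp w m` are invariant) acting transitively on the men, is exactly `z k`. -/
theorem result :
    ∀ z : ℕ → ℤ, z 0 = 1 → z 1 = 2 →
      (∀ k : ℕ, z (k + 2) = 3 * z (k + 1) ^ 2 - 2 * z k ^ 4) →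
      ∀ k : ℕ,
        IsGreatest
          {c : ℤ | ∃ mp wp : Fin (2 ^ k) → Equiv.Perm (Fin (2 ^ k)),
            (∃ (A : Type) (_ : CommGroup A) (α β : A →* Equiv.Perm (Fin (2 ^ k))),
              (∀ m m' : Fin (2 ^ k), ∃ g : A, α g m = m') ∧
              (∀ (g : A) (m w : Fin (2 ^ k)),
                mp (α g m) (β g w) = mp m w ∧ wp (β g w) (α g m) = wp w m)) ∧
            c = (({σ : Equiv.Perm (Fin (2 ^ k)) |
                    ∀ m w : Fin (2 ^ k),
                      ¬ (mp m w < mp m (σ m) ∧ wp w m < wp w (σ.symm w))}.ncard : ℕ) : ℤ)}
          (z k) := by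
  intro z h0 h1 hz k
  have hzy : ∀ k, z k = (SMAb.y k : ℤ) ∧ z (k + 1) = (SMAb.y (k + 1) : ℤ) := by
    intro k
    induction k with
    | zero => exact ⟨h0, h1⟩
    | succ k ih =>
      refine ⟨ih.2, ?_⟩
      rw [hz k, ih.1, ih.2]
      have h := SMAb.y_succ k
      have h' : (SMAb.y (k + 2) : ℤ) + 2 * (SMAb.y k : ℤ) ^ 4 = 3 * (SMAb.y (k + 1) : ℤ) ^ 2 := by
        exact_mod_cast h
      show 3 * (SMAb.y (k + 1) : ℤ) ^ 2 - 2 * (SMAb.y k : ℤ) ^ 4 = (SMAb.y (k + 2) : ℤ)
      omega
  rw [(hzy k).1]
  constructor
  · obtain ⟨mp, wp, h2, h3⟩ := SMAb.lower k
    exact ⟨mp, wp, h2, by rw [h3]⟩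
  · rintro c ⟨mp, wp, h2, rfl⟩
    exact_mod_cast SMAb.upper k mp wp h2

end Pool.Agent.Results.MP_c91ad1_co.AbelianAutomorphisms
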