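import Mathlib
import Pool.Agent.Lib.MP_c91ad1_co.Bound

/-!
# At most `(10/3)^n` stable matchings

Reveal the partners of the men in a stable matching `s` in a uniformly random order. Suppose that the
partner of `m` is revealed when `V` is the set of unrevealed men. If some stable matching `t` agrees with
`s` off `V` and `m` is better off in `t`, let `w` be a stable partner of `m` between `t m` and `s m`: by
the opposition of interests, `w` has different partners in `s` and in `t`, so her partner in `s` lies in
`V`. These partners, for different `w`, are different men, so the number of candidates for the partner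
of `m` is at most `1 + A + B`, where `A` and `B` are the lengths of the longest initial segments, inside
`V`, of two disjoint sequences of men depending on `m` and `s` only. The expected logarithm of `1 + A + B`
is at most `2/3 log 2 + 2/4 log (3/2) + 2/5 log (4/3) + ...`, which is less than `log (10/3)`.
-/

set_option autoImplicit false

namespace Pool.Agent.Results.MP_c91ad1_co.ExponentialUpperBound

/-- For every `n`, every stable marriage instance with `n` men and `n` women (`mp m w` is the rank of the
woman `w` in the list of the man `m`, `wp w m` the rank of the man `m` in the list of the woman `w`,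
smaller ranks are better) has at most `(10/3)^n` stable matchings. -/
theorem result (n : ℕ) (mp wp : Fin n → Equiv.Perm (Fin n)) :
    (({σ : Equiv.Perm (Fin n) |
        ∀ m w : Fin n, ¬ (mp m w < mp m (σ m) ∧ wp w m < wp w (σ.symm w))}.ncard : ℕ) : ℝ) ≤
      (10 / 3 : ℝ) ^ n := by
  classical
  have hfin : {σ : Equiv.Perm (Fin n) |
        ∀ m w : Fin n, ¬ (mp m w < mp m (σ m) ∧ wp w m < wp w (σ.symm w))}.Finite := Set.toFinite _
  rw [Set.ncard_eq_toFinset_card _ hfin]
  have h := SMB.card_le (α := Fin n) (P := fun m w => ((mp m w : Fin n) : ℕ))
    (Q := fun w m => ((wp w m : Fin n) : ℕ))
    (fun m => Fin.val_injective.comp (mp m).injective)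
    (fun w => Fin.val_injective.comp (wp w).injective) hfin.toFinset (fun s hs => by
      rw [Set.Finite.mem_toFinset] at hs
      exact hs)
  rwa [Fintype.card_fin] at h

end Pool.Agent.Results.MP_c91ad1_co.ExponentialUpperBound
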