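import Mathlib
import Pool.Agent.Lib.MP_c91ad1_co.SlFinal

/-!
# The square of the number of stable matchings is at most the product of the numbers of stable partners

For every instance. The restriction of a stable matching to a man is described by the number of his better
stable partners, and for each threshold there is another man whose number of better stable partners passes
a threshold of his at exactly the same stable matchings (each rotation moves at least two men). Splitting the
set of stable matchings along such thresholds and Cauchy-Schwarz give the bound.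
-/

set_option autoImplicit false

namespace Pool.Agent.Results.MP_c91ad1_co.ProductBound

/-- For every stable marriage instance (`mp m w` is the rank of the woman `w` in the list of the man `m`,
`wp w m` the rank of the man `m` in the list of the woman `w`, smaller is better) the square of the number
of stable matchings is at most the product over all men of the number of the stable partners. -/
theorem result (n : ℕ) (mp wp : Fin n → Equiv.Perm (Fin n)) :
    {σ : Equiv.Perm (Fin n) |
        ∀ m w : Fin n, ¬ (mp m w < mp m (σ m) ∧ wp w m < wp w (σ.symm w))}.ncard ^ 2 ≤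
      ∏ a : Fin n, ((fun σ : Equiv.Perm (Fin n) => σ a) '' {σ : Equiv.Perm (Fin n) |
        ∀ m w : Fin n, ¬ (mp m w < mp m (σ m) ∧ wp w m < wp w (σ.symm w))}).ncard := by
  classical
  set P : Fin n → Fin n → ℕ := fun m w => ((mp m w : Fin n) : ℕ) with hP
  set Q : Fin n → Fin n → ℕ := fun w m => ((wp w m : Fin n) : ℕ) with hQ
  have hPi : ∀ m, Function.Injective (P m) := fun m => Fin.val_injective.comp (mp m).injective
  have hQi : ∀ w, Function.Injective (Q w) := fun w => Fin.val_injective.comp (wp w).injective
  have hS : {σ : Equiv.Perm (Fin n) |
      ∀ m w : Fin n, ¬ (mp m w < mp m (σ m) ∧ wp w m < wp w (σ.symm w))} = ↑(SL.Sm P Q) := by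
    ext σ
    rw [Finset.mem_coe, SL.mem_Sm]
    exact Iff.rfl
  have hL : ∀ a : Fin n, ((fun σ : Equiv.Perm (Fin n) => σ a) '' {σ : Equiv.Perm (Fin n) |
      ∀ m w : Fin n, ¬ (mp m w < mp m (σ m) ∧ wp w m < wp w (σ.symm w))}).ncard =
      (SL.Sp P Q a).card := by
    intro a
    have e : (fun σ : Equiv.Perm (Fin n) => σ a) '' {σ : Equiv.Perm (Fin n) |
        ∀ m w : Fin n, ¬ (mp m w < mp m (σ m) ∧ wp w m < wp w (σ.symm w))} = ↑(SL.Sp P Q a) := by
      rw [hS, SL.Sp, Finset.coe_image]
    rw [e, Set.ncard_coe_finset]
  rw [hS, Set.ncard_coe_finset]
  refine (SL.card_sq_le hPi hQi).trans (le_of_eq ?_)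
  exact Finset.prod_congr rfl fun a _ => by rw [← hL a, hS]

end Pool.Agent.Results.MP_c91ad1_co.ProductBound
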