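import Mathlib
import Pool.Agent.Lib.MP_c91ad1_co.SlFinal
import Pool.Agent.Lib.MP_c91ad1_co.SlR7
import Pool.Agent.Lib.MP_c91ad1_co.SlR7b

/-!
# At most `t ≤ 4` stable partners: at most `(3 t - 2)^(n/4)` stable matchings

A stable matching is seen through its height vector (for every man the number of his stable partners that
are better than his partner). For a partition of the men into blocks, the Cauchy-Schwarz inequality gives
`|S|^2 ≤ ∏ Q(K)` where `Q(K)` is the number of pairs of restrictions of height vectors to the block `K`
that agree on all legs which are equal to a leg of a man outside `K`. The blocks come from a maximum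
matching in the graph of the good pairs, and the inequalities `Q(K)^2 ≤ ∏ e_t` for blocks of at most four
men are checked by a finite search; the only facts used on stable matchings are that each rotation moves at
least two men and that two consecutive rotations of a man do not both move him and the same other man only.
-/

set_option autoImplicit false

namespace Pool.Agent.Results.MP_c91ad1_co.ShortLists

/-- the set of the stable matchings; `mp m w` is the rank of the woman `w` in the list of the man `m`,
`wp w m` the rank of the man `m` in the list of the woman `w` (smaller is better) -/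
def stab {n : ℕ} (mp wp : Fin n → Equiv.Perm (Fin n)) : Set (Equiv.Perm (Fin n)) :=
  {σ | ∀ m w, ¬ (mp m w < mp m (σ m) ∧ wp w m < wp w (σ.symm w))}

/-- the number of the stable partners of the man `m` -/
noncomputable def len {n : ℕ} (mp wp : Fin n → Equiv.Perm (Fin n)) (m : Fin n) : ℕ :=
  ((fun σ : Equiv.Perm (Fin n) => σ m) '' stab mp wp).ncard

/-- For `t ≤ 4`: if every man has at most `t` stable partners, the fourth power of the number of stable
matchings is at most the product over the men `m` of `3 t - 2` (if `m` has `t` stable partners) or of the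
square of the number of the stable partners of `m` (if he has fewer), hence at most `(3 t - 2)^n`; and
this is attained for every `n` divisible by `4`. -/
theorem result (t : ℕ) (h1 : 1 ≤ t) (h4 : t ≤ 4) :
    (∀ (n : ℕ) (mp wp : Fin n → Equiv.Perm (Fin n)), (∀ m, len mp wp m ≤ t) →
      (stab mp wp).ncard ^ 4 ≤ ∏ m, (if len mp wp m = t then 3 * t - 2 else len mp wp m ^ 2) ∧
      (stab mp wp).ncard ^ 4 ≤ (3 * t - 2) ^ n) ∧
    ∀ k : ℕ, ∃ mp wp : Fin (4 * k) → Equiv.Perm (Fin (4 * k)), (∀ m, len mp wp m ≤ t) ∧
      (stab mp wp).ncard = (3 * t - 2) ^ k := by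
  refine ⟨fun n mp wp hl => ?_, fun k => ?_⟩
  · classical
    set P : Fin n → Fin n → ℕ := fun m w => ((mp m w : Fin n) : ℕ) with hP
    set Q : Fin n → Fin n → ℕ := fun w m => ((wp w m : Fin n) : ℕ) with hQ
    have hPi : ∀ m, Function.Injective (P m) := fun m => Fin.val_injective.comp (mp m).injective
    have hQi : ∀ w, Function.Injective (Q w) := fun w => Fin.val_injective.comp (wp w).injective
    have hS : stab mp wp = ↑(SL.Sm P Q) := by
      ext σ
      rw [Finset.mem_coe, SL.mem_Sm]
      exact Iff.rfl
    have hc : (stab mp wp).ncard = (SL.Sm P Q).card := by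
      rw [hS, Set.ncard_coe_finset]
    have hL : ∀ m, len mp wp m = (SL.Sp P Q m).card := by
      intro m
      have e : (fun σ : Equiv.Perm (Fin n) => σ m) '' stab mp wp = ↑(SL.Sp P Q m) := by
        rw [hS, SL.Sp, Finset.coe_image]
      rw [len, e, Set.ncard_coe_finset]
    have key := SL.card_pow_le hPi hQi h4 (fun a => by rw [← hL a]; exact hl a)
    have key' : (stab mp wp).ncard ^ 4 ≤ ∏ m, SL.ew t (len mp wp m) := by
      rw [hc]
      refine key.trans (le_of_eq ?_)
      exact Finset.prod_congr rfl fun a _ => by rw [hL a]
    refine ⟨key', key'.trans ?_⟩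
    calc ∏ m, SL.ew t (len mp wp m) ≤ ∏ _m : Fin n, (3 * t - 2) :=
          Finset.prod_le_prod' fun m _ => SL.ew_le h1 h4 (hl m)
      _ = (3 * t - 2) ^ n := by simp
  · obtain ⟨mp₀, wp₀, h5, h6⟩ := SL.base t h1 h4
    obtain ⟨mp, wp, h7, h8⟩ := SL.direct_sum t (3 * t - 2) mp₀ wp₀ h5 h6 k
    exact ⟨mp, wp, h8, h7⟩

end Pool.Agent.Results.MP_c91ad1_co.ShortLists
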